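import Pool.Agent.helper27.SY.Spec

/-!
# Project sy (MP_5628fe_nt), module CMB: the combined weights
-/

set_option autoImplicit false

namespace Pool.Agent.SY

open Finset ArithmeticFunction Pool.Agent.SX Pool.Agent.helper85.BVP

theorem CMB_s1 (Γ P : Finset ℕ) (f : Finset ℕ → ℝ) :
    ∑ F ∈ Γ.powerset, (if F ⊆ P then f F else 0) = ∑ E ∈ (Γ ∩ P).powerset, f E := by
  rw [← Finset.sum_filter]
  refine Finset.sum_congr ?_ fun _ _ => rfl
  ext F
  simp only [Finset.mem_filter, Finset.mem_powerset, Finset.subset_inter_iff]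

theorem CMB_s2 (Γ P : Finset ℕ) (p : ℕ) (hp : p ∉ P) (f : Finset ℕ → ℝ) :
    ∑ F ∈ Γ.powerset, (if F \ P = {p} then f F else 0) =
      if p ∈ Γ then ∑ E ∈ (Γ ∩ P).powerset, f (insert p E) else 0 := by
  rw [← Finset.sum_filter]
  split_ifs with h
  · refine Finset.sum_nbij' (fun F => F ∩ P) (fun E => insert p E) ?_ ?_ ?_ ?_ ?_
    · intro F hF
      rw [Finset.mem_filter, Finset.mem_powerset] at hF
      rw [Finset.mem_powerset]
      exact Finset.inter_subset_inter hF.1 (Finset.Subset.refl P)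
    · intro E hE
      rw [Finset.mem_powerset] at hE
      rw [Finset.mem_filter, Finset.mem_powerset]
      refine ⟨?_, ?_⟩
      · intro x hx
        rcases Finset.mem_insert.1 hx with rfl | hx
        · exact h
        · exact (Finset.mem_inter.1 (hE hx)).1
      · ext x
        rw [Finset.mem_sdiff, Finset.mem_insert, Finset.mem_singleton]
        constructor
        · rintro ⟨rfl | hx, h2⟩
          · rfl
          · exact absurd (Finset.mem_inter.1 (hE hx)).2 h2
        · rintro rfl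
          exact ⟨Or.inl rfl, hp⟩
    · intro F hF
      rw [Finset.mem_filter, Finset.mem_powerset] at hF
      have h2 := hF.2
      ext x
      rw [Finset.mem_insert, Finset.mem_inter]
      constructor
      · rintro (rfl | hx)
        · have : x ∈ F \ P := by rw [h2]; exact Finset.mem_singleton_self x
          exact (Finset.mem_sdiff.1 this).1
        · exact hx.1
      · intro hx
        by_cases hxP : x ∈ P
        · exact Or.inr ⟨hx, hxP⟩
        · left
          have : x ∈ F \ P := Finset.mem_sdiff.2 ⟨hx, hxP⟩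
          rw [h2] at this
          exact Finset.mem_singleton.1 this
    · intro E hE
      rw [Finset.mem_powerset] at hE
      ext x
      rw [Finset.mem_inter, Finset.mem_insert]
      constructor
      · rintro ⟨rfl | hx, h2⟩
        · exact absurd h2 hp
        · exact hx
      · intro hx
        exact ⟨Or.inr hx, (Finset.mem_inter.1 (hE hx)).2⟩
    · intro F hF
      rw [Finset.mem_filter, Finset.mem_powerset] at hF
      have h2 := hF.2
      congr 1
      ext x
      rw [Finset.mem_insert, Finset.mem_inter]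
      constructor
      · intro hx
        by_cases hxP : x ∈ P
        · exact Or.inr ⟨hx, hxP⟩
        · left
          have : x ∈ F \ P := Finset.mem_sdiff.2 ⟨hx, hxP⟩
          rw [h2] at this
          exact Finset.mem_singleton.1 this
      · rintro (rfl | hx)
        · have : x ∈ F \ P := by rw [h2]; exact Finset.mem_singleton_self x
          exact (Finset.mem_sdiff.1 this).1
        · exact hx.1
  · refine Finset.sum_eq_zero fun F hF => ?_
    exfalso
    rw [Finset.mem_filter, Finset.mem_powerset] at hF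
    have : p ∈ F \ P := by rw [hF.2]; exact Finset.mem_singleton_self p
    exact h (hF.1 (Finset.mem_sdiff.1 this).1)

/-- The combined weights. -/
noncomputable def CMB_C (P0 Q : Finset ℕ) (b : ℝ) (wt : ℕ → ℝ) (c : Finset ℕ → ℝ)
    (cp : ℕ → Finset ℕ → ℝ) (F : Finset ℕ) : ℝ :=
  (if F ⊆ P0 then c F else 0) -
    1 / b * ∑ p ∈ Q, (if F \ P0 = {p} then wt p * cp p (F ∩ P0) else 0)

theorem CMB_C_sub (P0 Q : Finset ℕ) (b : ℝ) (wt : ℕ → ℝ) (c : Finset ℕ → ℝ)
    (cp : ℕ → Finset ℕ → ℝ) (F : Finset ℕ) (h : F ⊆ P0) : CMB_C P0 Q b wt c cp F = c F := by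
  unfold CMB_C
  rw [if_pos h, Finset.sum_eq_zero, mul_zero, sub_zero]
  intro p _
  rw [if_neg]
  rw [Finset.sdiff_eq_empty_iff_subset.2 h]
  exact (Finset.singleton_ne_empty p).symm

theorem CMB_C_one (P0 Q : Finset ℕ) (b : ℝ) (wt : ℕ → ℝ) (c : Finset ℕ → ℝ)
    (cp : ℕ → Finset ℕ → ℝ) (F : Finset ℕ) (q : ℕ) (hq : q ∈ Q) (h : F \ P0 = {q}) :
    CMB_C P0 Q b wt c cp F = -(1 / b * (wt q * cp q (F ∩ P0))) := by
  unfold CMB_C
  have h1 : ¬ F ⊆ P0 := by
    intro h2
    rw [Finset.sdiff_eq_empty_iff_subset.2 h2] at h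
    exact (Finset.singleton_ne_empty q) h.symm
  rw [if_neg h1, Finset.sum_eq_single q, if_pos h, zero_sub]
  · intro p _ hpq
    rw [if_neg]
    rw [h]
    intro h2
    exact hpq (Finset.singleton_injective h2).symm
  · intro h2
    exact absurd hq h2

theorem CMB_C_zero (P0 Q : Finset ℕ) (b : ℝ) (wt : ℕ → ℝ) (c : Finset ℕ → ℝ)
    (cp : ℕ → Finset ℕ → ℝ) (F : Finset ℕ) (h1 : ¬ F ⊆ P0) (h : ∀ q ∈ Q, F \ P0 ≠ {q}) :
    CMB_C P0 Q b wt c cp F = 0 := by
  unfold CMB_C
  rw [if_neg h1, Finset.sum_eq_zero, mul_zero, sub_zero]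
  intro p hp
  rw [if_neg (h p hp)]

theorem CMB_split (F P0 : Finset ℕ) (q : ℕ) (h : F \ P0 = {q}) : F = insert q (F ∩ P0) := by
  ext x
  rw [Finset.mem_insert, Finset.mem_inter]
  constructor
  · intro hx
    by_cases hxP : x ∈ P0
    · exact Or.inr ⟨hx, hxP⟩
    · left
      have : x ∈ F \ P0 := Finset.mem_sdiff.2 ⟨hx, hxP⟩
      rw [h] at this
      exact Finset.mem_singleton.1 this
  · rintro (rfl | hx)
    · have : x ∈ F \ P0 := by rw [h]; exact Finset.mem_singleton_self x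
      exact (Finset.mem_sdiff.1 this).1
    · exact hx.1

/-- The sums of the combined weights. -/
theorem CMB_sum (P0 Q Γ : Finset ℕ) (b : ℝ) (wt : ℕ → ℝ) (c : Finset ℕ → ℝ)
    (cp : ℕ → Finset ℕ → ℝ) (G : Finset ℕ → ℝ) (hQ : ∀ p ∈ Q, p ∉ P0) :
    ∑ F ∈ Γ.powerset, CMB_C P0 Q b wt c cp F * G F = ∑ E ∈ (Γ ∩ P0).powerset, c E * G E
      - 1 / b * ∑ p ∈ Q, (if p ∈ Γ then
          ∑ E ∈ (Γ ∩ P0).powerset, wt p * cp p E * G (insert p E) else 0) := by
  have h1 : ∀ F ∈ Γ.powerset, CMB_C P0 Q b wt c cp F * G F =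
      (if F ⊆ P0 then c F * G F else 0) -
        1 / b * ∑ p ∈ Q, (if F \ P0 = {p} then wt p * cp p (F ∩ P0) * G F else 0) := by
    intro F _
    unfold CMB_C
    rw [sub_mul, ite_mul, zero_mul, mul_assoc (1 / b), Finset.sum_mul]
    congr 2
    refine Finset.sum_congr rfl fun p _ => ?_
    rw [ite_mul, zero_mul]
  rw [Finset.sum_congr rfl h1, Finset.sum_sub_distrib, CMB_s1, ← Finset.mul_sum, Finset.sum_comm]
  congr 2
  refine Finset.sum_congr rfl fun p hp => ?_
  rw [CMB_s2 Γ P0 p (hQ p hp) (fun F => wt p * cp p (F ∩ P0) * G F)]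
  split_ifs
  · refine Finset.sum_congr rfl fun E hE => ?_
    have hE' := Finset.mem_powerset.1 hE
    have h2 : insert p E ∩ P0 = E := by
      ext x
      rw [Finset.mem_inter, Finset.mem_insert]
      constructor
      · rintro ⟨rfl | hx, h2⟩
        · exact absurd h2 (hQ x hp)
        · exact hx
      · intro hx
        exact ⟨Or.inr hx, (Finset.mem_inter.1 (hE' hx)).2⟩
    rw [h2]
  · rfl

theorem CMB_wH (H p : ℕ) (hH : 1 ≤ H) (hp : 1 ≤ p) (h : p ^ 10 < 2 ^ H) :
    0 ≤ wH H p ∧ wH H p ≤ 1 := by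
  unfold wH
  have hl2 : 0 < Real.log 2 := Real.log_pos (by norm_num)
  have hH0 : (0 : ℝ) < H := by exact_mod_cast hH
  have hp0 : (1 : ℝ) ≤ p := by exact_mod_cast hp
  have h1 : 0 ≤ Real.log p := Real.log_nonneg hp0
  have h2 : 10 * Real.log p ≤ H * Real.log 2 := by
    have h3 : ((p : ℝ)) ^ 10 ≤ 2 ^ H := by exact_mod_cast h.le
    have h4 := Real.log_le_log (by positivity) h3
    rw [Real.log_pow, Real.log_pow] at h4
    exact_mod_cast h4
  have h3 : 0 < (H : ℝ) * (Real.log 2 / 10) := by positivity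
  constructor
  · rw [sub_nonneg, div_le_one h3]
    linarith
  · have : 0 ≤ Real.log p / (H * (Real.log 2 / 10)) := by positivity
    linarith

theorem CMB_g (p : ℕ) (E : Finset ℕ) (h : p ∉ E) : g (insert p E) = 2 / (p : ℝ) * g E := by
  unfold g
  rw [Finset.prod_insert h]

theorem CMB (hSAD : SAD_stmt) : CMB_stmt := by
  obtain ⟨hPr, hBl, hV, -, hVpos, -⟩ := hSAD
  intro w a Y B L U b hw ha haY hB hB2 hb hT
  obtain ⟨hTL, hTU⟩ := hT
  set P0 := Pr (a * w) with hP0
  set P1 := Pr (Y * w) with hP1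
  set Q := Bl (a * w) (Y * w) with hQ
  have hYw : 1 ≤ Y * w := Nat.mul_pos (by omega) hw
  have h01 : P0 ⊆ P1 := by
    intro p hp
    rw [hP0, hPr] at hp
    rw [hP1, hPr]
    exact ⟨hp.1, hp.2.1, hp.2.2.trans_le (Nat.pow_le_pow_right (by norm_num)
      (Nat.mul_le_mul_right w haY.le))⟩
  have hQeq : Q = P1 \ P0 := rfl
  have hQ0 : ∀ p ∈ Q, p ∉ P0 := by
    intro p hp
    rw [hQeq] at hp
    exact (Finset.mem_sdiff.1 hp).2
  have hQ1 : ∀ p ∈ Q, p ∈ P1 := by
    intro p hp
    rw [hQeq] at hp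
    exact (Finset.mem_sdiff.1 hp).1
  -- the index of the block
  set J : ℕ → ℕ := fun p => (Nat.log 2 (p ^ 10) / w - a) / 3 with hJ
  set n := (Y - a + 2) / 3 with hn
  set s : ℕ → ℕ := fun j => min (a + 3 * j + 3) Y with hs
  have hmem : ∀ p j, p ∈ Bl ((a + 3 * j) * w) (s j * w) ↔ p ∈ Q ∧ J p = j := by
    intro p j
    rw [hQ, hBl, hBl]
    have key : ∀ x : ℕ, 7 ≤ p → (2 ^ (x * w) ≤ p ^ 10 ↔ x ≤ Nat.log 2 (p ^ 10) / w) := by
      intro x hp7
      have hne : p ^ 10 ≠ 0 := by positivity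
      rw [Nat.le_div_iff_mul_le hw, Nat.le_log_iff_pow_le (by norm_num) hne]
    have key2 : ∀ x : ℕ, 7 ≤ p → (p ^ 10 < 2 ^ (x * w) ↔ Nat.log 2 (p ^ 10) / w < x) := by
      intro x hp7
      rw [← not_le, key x hp7, not_le]
    constructor
    · rintro ⟨h1, h2, h3, h4⟩
      rw [key _ h2] at h3
      rw [key2 _ h2] at h4
      refine ⟨⟨h1, h2, ?_, ?_⟩, ?_⟩
      · rw [key _ h2]; omega
      · rw [key2 _ h2]; simp only [hs] at h4; omega
      · simp only [hJ, hs] at h4 ⊢; omega
    · rintro ⟨⟨h1, h2, h3, h4⟩, h5⟩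
      rw [key _ h2] at h3
      rw [key2 _ h2] at h4
      refine ⟨h1, h2, ?_, ?_⟩
      · rw [key _ h2]; simp only [hJ] at h5; omega
      · rw [key2 _ h2]; simp only [hJ] at h5; simp only [hs]; omega
  have hJn : ∀ p ∈ Q, J p < n := by
    intro p hp
    rw [hQ, hBl] at hp
    obtain ⟨h1, h2, h3, h4⟩ := hp
    have hne : p ^ 10 ≠ 0 := by positivity
    have h5 : Nat.log 2 (p ^ 10) / w < Y := by
      rw [Nat.div_lt_iff_lt_mul hw]
      exact Nat.log_lt_of_lt_pow hne h4
    simp only [hJ, hn]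
    omega
  -- the weights
  obtain ⟨c, hc1, hc2, hc3, hc4⟩ := hTL B hB2
  have hup : ∀ j : ℕ, WUp (a * w) ((B - s j) * w) ((dig U (B - s j) : ℝ) / 2 ^ 40) := by
    intro j
    apply hTU
    · simp only [hs]; omega
    · omega
  choose cj hcj using hup
  set wt : ℕ → ℝ := fun p => wH (Y * w) p with hwt
  have hwt1 : ∀ p ∈ Q, 0 ≤ wt p ∧ wt p ≤ 1 := by
    intro p hp
    rw [hQ, hBl] at hp
    exact CMB_wH _ p hYw (by omega) hp.2.2.2
  set cp : ℕ → Finset ℕ → ℝ := fun p => cj (J p) with hcp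
  have hb0 : 0 < b := by linarith
  refine ⟨CMB_C P0 Q b wt c cp, ?_, ?_, ?_, ?_⟩
  · intro F
    by_cases h1 : F ⊆ P0
    · rw [CMB_C_sub _ _ _ _ _ _ _ h1]
      exact hc1 F
    · by_cases h2 : ∃ q ∈ Q, F \ P0 = {q}
      · obtain ⟨q, hq, h3⟩ := h2
        rw [CMB_C_one _ _ _ _ _ _ _ q hq h3, abs_neg, abs_mul, abs_mul]
        have h4 := hwt1 q hq
        have h5 : |cp q (F ∩ P0)| ≤ 1 := (hcj (J q)).1 _
        have h6 : |(1 / b : ℝ)| ≤ 1 := by
          rw [abs_of_pos (by positivity)]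
          exact (div_le_one hb0).2 hb
        have h7 : |wt q| ≤ 1 := by rw [abs_of_nonneg h4.1]; exact h4.2
        calc |(1 / b : ℝ)| * (|wt q| * |cp q (F ∩ P0)|) ≤ 1 * (1 * 1) := by gcongr
          _ = 1 := by norm_num
      · rw [CMB_C_zero _ _ _ _ _ _ _ h1]
        · simp
        · intro q hq h3
          exact h2 ⟨q, hq, h3⟩
  · intro F hF
    by_cases h1 : F ⊆ P0
    · rw [CMB_C_sub _ _ _ _ _ _ _ h1] at hF
      have := hc2 F hF
      exact ⟨h1.trans h01, this.2⟩
    · by_cases h2 : ∃ q ∈ Q, F \ P0 = {q}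
      · obtain ⟨q, hq, h3⟩ := h2
        rw [CMB_C_one _ _ _ _ _ _ _ q hq h3] at hF
        have h4 : cp q (F ∩ P0) ≠ 0 := by
          intro h5
          rw [h5] at hF
          simp at hF
        have h5 := (hcj (J q)).2.1 _ h4
        have h6 := CMB_split F P0 q h3
        have hq0 : q ∉ F ∩ P0 := fun h7 => hQ0 q hq (Finset.mem_inter.1 h7).2
        refine ⟨?_, ?_⟩
        · rw [h6]
          intro x hx
          rcases Finset.mem_insert.1 hx with rfl | hx
          · exact hQ1 x hq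
          · exact h01 (Finset.mem_inter.1 hx).2
        · rw [h6, Finset.prod_insert hq0, mul_pow]
          have h7 : q ^ 10 < 2 ^ (s (J q) * w) := by
            have h8 := (hmem q (J q)).2 ⟨hq, rfl⟩
            rw [hBl] at h8
            exact h8.2.2.2
          have h9 : B * w = s (J q) * w + (B - s (J q)) * w := by
            rw [← add_mul]
            congr 1
            have : s (J q) ≤ Y := by simp only [hs]; omega
            omega
          rw [h9, pow_add]
          exact Nat.mul_le_mul h7.le h5.2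
      · exfalso
        apply hF
        exact CMB_C_zero _ _ _ _ _ _ _ h1 (fun q hq h3 => h2 ⟨q, hq, h3⟩)
  · intro Γ hΓ
    have h1 := CMB_sum P0 Q Γ b wt c cp (fun _ => 1) hQ0
    simp only [mul_one] at h1
    rw [h1]
    have h2 := hc3 (Γ ∩ P0) Finset.inter_subset_right
    have h3 : ∀ p ∈ Q, (if p ∈ Γ then (if Γ ∩ P0 = ∅ then wt p else 0) else 0) ≤
        (if p ∈ Γ then ∑ E ∈ (Γ ∩ P0).powerset, wt p * cp p E else 0) := by
      intro p hp
      split_ifs with h4 h5
      · rw [← Finset.mul_sum]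
        have h6 := (hcj (J p)).2.2.1 (Γ ∩ P0) Finset.inter_subset_right
        rw [if_pos h5] at h6
        have h7 := (hwt1 p hp).1
        have h8 : wt p * 1 ≤ wt p * ∑ E ∈ (Γ ∩ P0).powerset, cp p E :=
          mul_le_mul_of_nonneg_left h6 h7
        linarith
      · rw [← Finset.mul_sum]
        have h6 := (hcj (J p)).2.2.1 (Γ ∩ P0) Finset.inter_subset_right
        rw [if_neg h5] at h6
        exact mul_nonneg (hwt1 p hp).1 h6
      · exact le_refl _
    have h4 := Finset.sum_le_sum h3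
    have h5 : 1 / b * ∑ p ∈ Q, (if p ∈ Γ then (if Γ ∩ P0 = ∅ then wt p else 0) else 0) ≤
        1 / b * ∑ p ∈ Q, (if p ∈ Γ then ∑ E ∈ (Γ ∩ P0).powerset, wt p * cp p E else 0) :=
      mul_le_mul_of_nonneg_left h4 (by positivity)
    by_cases h6 : Γ ∩ P0 = ∅
    · rw [if_pos h6] at h2 ⊢
      simp only [if_pos h6] at h5
      have h7 : ∑ p ∈ Q, (if p ∈ Γ then wt p else 0) = ∑ p ∈ Γ, wH (Y * w) p := by
        rw [← Finset.sum_filter]
        refine Finset.sum_congr ?_ fun _ _ => rfl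
        ext p
        rw [Finset.mem_filter]
        constructor
        · exact fun h => h.2
        · intro h
          refine ⟨?_, h⟩
          rw [hQeq, Finset.mem_sdiff]
          refine ⟨hΓ h, fun h8 => ?_⟩
          have : p ∈ Γ ∩ P0 := Finset.mem_inter.2 ⟨h, h8⟩
          rw [h6] at this
          exact absurd this (Finset.notMem_empty p)
      rw [h7] at h5
      linarith
    · rw [if_neg h6] at h2 ⊢
      simp only [if_neg h6, ite_self, Finset.sum_const_zero, mul_zero] at h5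
      linarith
  · rw [CMB_sum P0 Q P1 b wt c cp g hQ0]
    have hI : P1 ∩ P0 = P0 := Finset.inter_eq_right.2 h01
    rw [hI]
    have hVp : 0 < V P0 := (hVpos (a * w) (a * w)).1
    -- upper bound for the second sum
    have h1 : ∑ p ∈ Q, (if p ∈ P1 then ∑ E ∈ P0.powerset, wt p * cp p E * g (insert p E) else 0)
        ≤ ∑ p ∈ Q, V P0 * ((1 + (dig U (B - s (J p)) : ℝ) / 2 ^ 40) * (2 / (p : ℝ) * wt p)) := by
      refine Finset.sum_le_sum fun p hp => ?_
      rw [if_pos (hQ1 p hp)]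
      have h2 : ∑ E ∈ P0.powerset, wt p * cp p E * g (insert p E) =
          (2 / (p : ℝ) * wt p) * ∑ E ∈ P0.powerset, cp p E * g E := by
        rw [Finset.mul_sum]
        refine Finset.sum_congr rfl fun E hE => ?_
        rw [CMB_g p E (fun h => hQ0 p hp (Finset.mem_powerset.1 hE h))]
        ring
      rw [h2]
      have h3 := (hcj (J p)).2.2.2
      have h4 : 0 ≤ 2 / (p : ℝ) * wt p := mul_nonneg (by positivity) (hwt1 p hp).1
      calc (2 / (p : ℝ) * wt p) * ∑ E ∈ P0.powerset, cp p E * g E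
          ≤ (2 / (p : ℝ) * wt p) * (V P0 * (1 + (dig U (B - s (J p)) : ℝ) / 2 ^ 40)) :=
            mul_le_mul_of_nonneg_left h3 h4
        _ = V P0 * ((1 + (dig U (B - s (J p)) : ℝ) / 2 ^ 40) * (2 / (p : ℝ) * wt p)) := by ring
    have h2 : ∑ p ∈ Q, V P0 * ((1 + (dig U (B - s (J p)) : ℝ) / 2 ^ 40) * (2 / (p : ℝ) * wt p))
        = V P0 * BS w a Y B U := by
      rw [← Finset.mul_sum]
      congr 1
      unfold BS
      rw [← Finset.sum_fiberwise_of_maps_to (s := Q) (t := range n) (g := J)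
        (fun p hp => Finset.mem_range.2 (hJn p hp))]
      refine Finset.sum_congr rfl fun j _ => ?_
      rw [Finset.mul_sum]
      have h3 : Q.filter (fun p => J p = j) = Bl ((a + 3 * j) * w) (s j * w) := by
        ext p
        rw [Finset.mem_filter, hmem]
      rw [h3]
      refine Finset.sum_congr rfl fun p hp => ?_
      have h4 := ((hmem p j).1 hp).2
      rw [h4]
    rw [h2] at h1
    have h3 : 1 / b * ∑ p ∈ Q, (if p ∈ P1 then
        ∑ E ∈ P0.powerset, wt p * cp p E * g (insert p E) else 0) ≤ 1 / b * (V P0 * BS w a Y B U) :=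
      mul_le_mul_of_nonneg_left h1 (by positivity)
    have h4 : V P0 * (1 - (dig L B : ℝ) / 2 ^ 40 - 1 / b * BS w a Y B U) =
        V P0 * (1 - (dig L B : ℝ) / 2 ^ 40) - 1 / b * (V P0 * BS w a Y B U) := by ring
    rw [h4]
    linarith

end Pool.Agent.SY
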